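import Pool.Agent.H43.CB2.Main

set_option autoImplicit false

namespace Pool.Agent.Results.MP_128e7d_lc.BallContactGraphs

open Pool.Agent.NPC Pool.Agent.NPC.R671 Pool.Agent.NPC.UB129 Pool.Agent.H43.CB Pool.Agent.NPC.CB43
open Pool.Agent.W185.SRG (WLEquivalent)

universe u

/-- **Isomorphism of contact graphs of balls is as hard as graph isomorphism, even if the ratio of
the radii is at most `N ^ ε`**, in all real normed spaces of dimension at least three at once. Here
`N` is the number of the vertices and `ε = 1 / q` is fixed. A graph is tame if, in every real normed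
space of dimension at least three, it is a contact graph of balls with disjoint interiors and with
radii between `1` and `N ^ (1 / q)`.
(1) A polynomial-time map `T` sends every graph to a tame graph, and `T G`, `T H` are isomorphic if
and only if `G`, `H` are.
Let `𝒞` be any class of graphs which contains the tame graphs (for example the contact graphs of
balls of one such space with ratio of the radii at most `N ^ (1 / q)`).
(2) Some polynomial-time algorithm decides isomorphism correctly for all pairs of graphs in `𝒞`
if and only if GRAPH ISOMORPHISM is in `P`.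
(3) Every problem in `NP` has a polynomial-time many-one reduction to graph isomorphism all of whose
values are pairs of graphs in `𝒞` if and only if GRAPH ISOMORPHISM is `NP`-hard.
(4) For some `c` and all `k ≥ 1` there are two non-isomorphic tame graphs with the same number
`N ≤ c (k (log₂ k + 1)) ^ (10 q)` of vertices which the `k`-dimensional Weisfeiler-Leman method does
not distinguish. -/
theorem result (q : ℕ) (hq : 1 ≤ q) :
    (∃ (N : ℕ → ℕ) (T : ∀ n, SimpleGraph (Fin n) → SimpleGraph (Fin (N n)))
        (F : List Bool → List Bool), PolyTime F ∧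
      (∀ n G, F (bits (adjMatrix G)) = bits (adjMatrix (T n G))) ∧
      (∀ n G, TameContactGraph.{u} q (N n) (T n G)) ∧
      ∀ n m G H, Nonempty (T n G ≃g T m H) ↔ Nonempty (G ≃g H)) ∧
    (∀ 𝒞 : ∀ n : ℕ, SimpleGraph (Fin n) → Prop,
      (∀ n G, TameContactGraph.{u} q n G → 𝒞 n G) →
      ((∃ A : List Bool → List Bool, PolyTime A ∧
          ∀ (n m : ℕ) (G : SimpleGraph (Fin n)) (H : SimpleGraph (Fin m)), 𝒞 n G → 𝒞 m H →
            (A (bits (adjMatrix G, adjMatrix H)) = [true] ↔ Nonempty (G ≃g H))) ↔ InP GI) ∧
      ((∀ L : Set (List Bool), InNP L → ∃ g : List Bool → List Bool, PolyTime g ∧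
          ∀ x, ∃ (n m : ℕ) (G : SimpleGraph (Fin n)) (H : SimpleGraph (Fin m)),
            𝒞 n G ∧ 𝒞 m H ∧ g x = bits (adjMatrix G, adjMatrix H) ∧
            (x ∈ L ↔ Nonempty (G ≃g H))) ↔ NPHard GI)) ∧
    ∃ c : ℕ, ∀ k : ℕ, 1 ≤ k → ∃ (N : ℕ) (P Q : SimpleGraph (Fin N)),
      TameContactGraph.{u} q N P ∧ TameContactGraph.{u} q N Q ∧ ¬ Nonempty (P ≃g Q) ∧
      WLEquivalent k P Q ∧ N ≤ c * (k * (Nat.log 2 k + 1)) ^ (10 * q) :=
  mainq q hq

end Pool.Agent.Results.MP_128e7d_lc.BallContactGraphs
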