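import Pool.Agent.H94.DS.Main
import Pool.Agent.H94.DS.Eig
import Pool.Agent.H94.DS.WLMain

/-!
# Isomorphism of directed strongly regular graphs

Directed strongly regular graphs were introduced by Duval (1988): digraphs without loops in which
all in- and out-degrees are `k`, and in which the number of the directed paths of length two from `x`
to `y` is `t` if `x = y`, is `l` if there is an arc from `x` to `y`, and is `m` otherwise. The two
extreme cases are `t = k`, the strongly regular graphs, and `t = 0`, the doubly regular tournaments
(up to trivial cases); in both cases the isomorphism problem is believed to be easier than for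
general graphs: isomorphism of tournaments can be decided in time `n ^ O(log n)`, for strongly
regular graphs there are faster algorithms than for general graphs (of time `exp (n ^ (1/5 + o(1)))`),
and the Weisfeiler-Leman method of sublinear dimension `n ^ (1/3 + o(1))` identifies them. We show that
for the directed strongly regular graphs between these two extreme cases, `0 < t < k`, isomorphism is
as hard as graph isomorphism in general, and the Weisfeiler-Leman method of linear dimension fails,
even for the parameters `(4 k + 2, 2 k, k, k - 1, k)`. The adjacency matrices `A` of these digraphs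
satisfy `A ^ 2 + A = k J`; their only eigenvalues are `2 k`, `0` and `-1`.

Construction. Let `B` be a regular graph of degree `k` with `2 k + 1` vertices. The digraph of `B` has
two copies of the vertex set; there are arcs from both copies of `i` to the first copy of the
neighbours of `i` and to the second copy of the other vertices `≠ i`. It is a directed strongly
regular graph. The two copies of a vertex are recognised since they have the same out-neighbours, and
the digraph determines `B` up to complementation, since `B` is symmetric. To a graph `G` with `n`
vertices we first add two isolated vertices, and then take the graph `B` with `4 (n + 2) + 1`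
vertices that consists of two copies `G₁`, `G₂` of the graph, with `u` in `G₁` and `v ≠ u` in `G₂`
adjacent if `u v` is not an edge, two independent sets `P₁`, `P₂` of `n + 2` vertices, completely
joined to each other, with `Pᵢ` also completely joined to `Gᵢ`, and one more vertex, joined to all
vertices of `G₁` and `G₂`. In `B` the vertices of `P₁` and `P₂` are recognised as they have twins.
Strategies in the bijection game on graphs carry over to the digraphs.

Polynomial time is Mathlib's `Turing.TM2ComputableInPolyTime`; see `Pool/Graph/R_seed8/NPC`.
-/

set_option autoImplicit false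

namespace Pool.Agent.Results.MP_128e7d_lc.DirectedStronglyRegular

open Pool.Agent.NPC Pool.Agent.NPC.R671 Pool.Agent.NPC.DS94
open Pool.Agent.H94.DS (IsDSRG HalfDSRG IsEigenvalue WLEquivalentD)
open Pool.Agent.W185.SRG (WLEquivalent)

/-- **Isomorphism of directed strongly regular graphs with parameters `(4k + 2, 2k, k, k - 1, k)`,
`k ≥ 1`, is as hard as graph isomorphism, also for the Weisfeiler-Leman method.**
(1) The eigenvalues of such a digraph are `2 k`, `0` and `-1`.
(2) A polynomial-time map `T` sends every graph with `n` vertices to such a digraph with `8 n + 18`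
vertices, `T G`, `T H` are isomorphic if and only if `G`, `H` are, and if the `j`-dimensional
Weisfeiler-Leman method does not distinguish `G` and `H` then it does not distinguish `T G` and `T H`.
(3) So some polynomial-time algorithm decides isomorphism correctly for all pairs of such digraphs
if and only if GRAPH ISOMORPHISM is in `P`,
(4) every problem in `NP` has a polynomial-time many-one reduction to digraph isomorphism all of whose
values are pairs of such digraphs if and only if GRAPH ISOMORPHISM is `NP`-hard, and
(5) for all `n ≥ 160000000` there are two non-isomorphic such digraphs with `8 n + 18` vertices which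
the `j`-dimensional Weisfeiler-Leman method does not distinguish for all `j ≤ n / 45000000`. -/
theorem result :
    (∀ (n k : ℕ) (D : Digraph (Fin n)), 1 ≤ k → IsDSRG D (4 * k + 2) (2 * k) k (k - 1) k →
      ∀ z : ℂ, IsEigenvalue D z ↔ z = 2 * k ∨ z = 0 ∨ z = -1) ∧
    (∃ (T : ∀ n, SimpleGraph (Fin n) → Digraph (Fin (8 * n + 18))) (F : List Bool → List Bool),
      PolyTime F ∧
      (∀ n G, F (bits (adjMatrix G)) = bits (digMatrix (T n G))) ∧
      (∀ n G, HalfDSRG (T n G)) ∧
      (∀ n m G H, Nonempty ((T n G).Adj ≃r (T m H).Adj) ↔ Nonempty (G ≃g H)) ∧
      ∀ n j G H, WLEquivalent j G H → WLEquivalentD j (T n G) (T n H)) ∧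
    ((∃ A : List Bool → List Bool, PolyTime A ∧
        ∀ (n m : ℕ) (D : Digraph (Fin n)) (E : Digraph (Fin m)), HalfDSRG D → HalfDSRG E →
          (A (bits (digMatrix D, digMatrix E)) = [true] ↔ Nonempty (D.Adj ≃r E.Adj))) ↔ InP GI) ∧
    ((∀ L : Set (List Bool), InNP L → ∃ g : List Bool → List Bool, PolyTime g ∧
        ∀ x, ∃ (n m : ℕ) (D : Digraph (Fin n)) (E : Digraph (Fin m)),
          HalfDSRG D ∧ HalfDSRG E ∧ g x = bits (digMatrix D, digMatrix E) ∧
          (x ∈ L ↔ Nonempty (D.Adj ≃r E.Adj))) ↔ NPHard GI) ∧
    ∀ n : ℕ, 160000000 ≤ n → ∃ D E : Digraph (Fin (8 * n + 18)), HalfDSRG D ∧ HalfDSRG E ∧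
      ¬ Nonempty (D.Adj ≃r E.Adj) ∧ ∀ j : ℕ, 45000000 * j ≤ n → WLEquivalentD j D E :=
  ⟨fun _ _ _ hk h z => Pool.Agent.H94.DS.eigenvalue_iff h hk z,
    let ⟨F, h1, h2⟩ := exists_red
    ⟨TT, F, h1, h2, half_TT, fun _ _ G H => TT_iso_iff G H,
      fun _ _ _ _ h => Pool.Agent.H94.DS.wl_TT' h⟩, main.2.1, main.2.2,
    fun n hn => Pool.Agent.H94.DS.wl_lower n hn⟩

end Pool.Agent.Results.MP_128e7d_lc.DirectedStronglyRegular
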