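import Pool.Agent.H72.JC.Main

/-!
# Isomorphism of graphs with the spectrum of a Johnson graph `J(v, d)`, `d ≥ 3`

The Johnson graph `J(v, d)` has the `d`-subsets of a set of `v` elements as vertices; two of them are
adjacent if they have `d - 1` common elements. It has only `d + 1` distinct eigenvalues (`v ≥ 2 d`).
For `d ≤ 2` the graphs with the spectrum of `J(v, d)` are known: complete graphs (`d = 1`), and
the triangular graphs and the three Chang graphs (`d = 2`). We show that for every fixed `d ≥ 3`
isomorphism of the graphs with the spectrum (with multiplicities) of a Johnson graph `J(v, d)` is as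
hard as graph isomorphism in general. For `d = 3` these are regular graphs with exactly four
distinct eigenvalues. (Connected regular graphs with three distinct eigenvalues are the strongly
regular graphs, whose isomorphism problem is believed to be easier than the general one.)

Construction. Call the `d - 1`-subsets of the set of points nodes. Let `F` be a family of sets of
`2 d - 2` points, two of which have at most `d - 1` common points. The vertices are the `d`-sets that
are in no member of `F`, and the pairs `(E, C)`, `E` in `F`, `C` a subset of `E` with `d - 2` elements;
a `d`-set has its `d - 1`-subsets as nodes, and `(E, C)` has the `d - 1`-sets between `C` and `E` as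
nodes. Two different vertices are adjacent if they have a common node. Each vertex has `d` nodes and
two nodes have a common vertex, and then exactly one, if and only if they have `d - 2` common points;
so the graph is cospectral with `J(v, d)` (the case of the empty family). Conversely, a clique with at
least `d ^ 2 + 2` vertices has a common node, so the graph determines its nodes, and, since the
automorphisms of Johnson graphs come from permutations of the points, the family `F` up to
isomorphism. Finally graphs are encoded by such families: the set of the edge `i j` consists of the
points `i`, `j` and `2 d - 4` private points, and each vertex is in two further sets with `2 d - 3`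
private points. (Replacing the 4 triples in one set of 4 points is a known construction of a
graph cospectral with `J(v, 3)`.)

Polynomial time is Mathlib's `Turing.TM2ComputableInPolyTime`; see `Pool/Graph/R_seed8/NPC`.
-/

set_option autoImplicit false

namespace Pool.Agent.Results.MP_128e7d_lc.JohnsonSpectra

open Pool.Agent.NPC Pool.Agent.NPC.R671 Pool.Agent.NPC.JC72
open Pool.Agent.H72.JC (numEigenvalues JohnsonSpectrum)

/-- **Isomorphism of graphs with the spectrum of a Johnson graph `J(v, d)` is as hard as graph
isomorphism**, for every fixed `d ≥ 3`.
(1) These graphs have exactly `d + 1` distinct eigenvalues.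
(2) A polynomial-time map `T` sends every graph to a graph with the spectrum of a Johnson graph
`J(v, d)`, `v ≥ 2 d`, and `T G`, `T H` are isomorphic if and only if `G`, `H` are.
(3) Some polynomial-time algorithm decides isomorphism correctly for all pairs of graphs with such
spectra if and only if GRAPH ISOMORPHISM is in `P`.
(4) Every problem in `NP` has a polynomial-time many-one reduction to graph isomorphism all of whose
values are pairs of graphs with such spectra if and only if GRAPH ISOMORPHISM is `NP`-hard. -/
theorem result (d : ℕ) (hd : 3 ≤ d) :
    (∀ (n : ℕ) (G : SimpleGraph (Fin n)), JohnsonSpectrum d G → numEigenvalues G = d + 1) ∧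
    (∃ (N : ∀ n, SimpleGraph (Fin n) → ℕ) (T : ∀ n G, SimpleGraph (Fin (N n G)))
        (F : List Bool → List Bool), PolyTime F ∧
      (∀ n G, F (bits (adjMatrix G)) = bits (adjMatrix (T n G))) ∧
      (∀ n G, JohnsonSpectrum d (T n G)) ∧
      ∀ n m G H, Nonempty (T n G ≃g T m H) ↔ Nonempty (G ≃g H)) ∧
    ((∃ A : List Bool → List Bool, PolyTime A ∧
        ∀ (n m : ℕ) (G : SimpleGraph (Fin n)) (H : SimpleGraph (Fin m)),
          JohnsonSpectrum d G → JohnsonSpectrum d H →
          (A (bits (adjMatrix G, adjMatrix H)) = [true] ↔ Nonempty (G ≃g H))) ↔ InP GI) ∧
    ((∀ L : Set (List Bool), InNP L → ∃ g : List Bool → List Bool, PolyTime g ∧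
        ∀ x, ∃ (n m : ℕ) (G : SimpleGraph (Fin n)) (H : SimpleGraph (Fin m)),
          JohnsonSpectrum d G ∧ JohnsonSpectrum d H ∧ g x = bits (adjMatrix G, adjMatrix H) ∧
          (x ∈ L ↔ Nonempty (G ≃g H))) ↔ NPHard GI) :=
  main d hd

end Pool.Agent.Results.MP_128e7d_lc.JohnsonSpectra
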