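import Pool.Agent.H56.PR.Main
import Pool.Agent.H56.PR.WlFin

/-!
# Isomorphism of graphs with almost optimal pseudorandomness is GI-complete

Let `ε > 0`. The graphs considered here are regular of degree `N / 2`, `N` being the number of
vertices, and all eigenvalues of the adjacency matrix, except for the trivial one, are at most
`N ^ (1 / 2 + ε)` in absolute value. So the numbers of edges between all sets of vertices are those
of a random graph up to an error which is optimal up to the factor `N ^ ε`: no regular graph of
degree `N / 2` has all nontrivial eigenvalues below `√N / 2`. We show that isomorphism of such graphs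
is as hard as graph isomorphism in general, for every `ε > 0`.

Construction. Add `n + 1` isolated vertices to the graph `G` with `n` vertices and let `S` be the
symmetric matrix with entries `-1` for the adjacent and `1` for the other pairs, of order `2 n + 1`.
Any two rows of `S` have a positive inner product. Let `K` be the matrix with rows `(1, -1)` and
`(-1, 1)`, and let `B` be the tensor power of order `4 ^ k` of the symmetric Hadamard matrix of order
four with constant diagonal. The entries `-1` of `S ⊗ K ⊗ B` are the edges of the new graph. All row
sums vanish, so that it is regular of degree `N / 2`. Its nontrivial eigenvalues are at most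
`(2 n + 1) 2 ^ k`, because `B` is orthogonal up to a factor. Two vertices are in the same fibre (have
the same second and third coordinates) if and only if their rows have a positive inner product; so
an isomorphism permutes the fibres, and every fibre spans a copy of `G` with the isolated vertices.
Strategies in the bijection game on `G` and `H` carry over to the new graphs, so that the
Weisfeiler-Leman method of any fixed dimension fails in the class, although it works for random graphs
in dimension two.

Polynomial time is Mathlib's `Turing.TM2ComputableInPolyTime`; see `Pool/Graph/R_seed8/NPC`.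
-/

set_option autoImplicit false

namespace Pool.Agent.Results.MP_128e7d_lc.PseudorandomGraphs

open Pool.Agent.NPC Pool.Agent.NPC.R671 Pool.Agent.NPC.PR56
open Pool.Agent.H56.PR (HalfExpander Pseudorandom edgePairs)
open Pool.Agent.W185.SRG (WLEquivalent)

/-- **Isomorphism of regular graphs of degree `N / 2` whose nontrivial eigenvalues are at most
`N ^ (1 / 2 + ε)` is as hard as graph isomorphism**, for every `ε > 0`.
(1) No regular graph of degree `N / 2` has all nontrivial eigenvalues below `√N / 2`; in the graphs
of the class the numbers of edges between all sets `S`, `T` of vertices are `|S| |T| / 2` up to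
`N ^ (1 / 2 + ε) √(|S| |T|)`.
(2) A polynomial-time map `T` sends every graph to a graph of the class, and `T G`, `T H` are
isomorphic if and only if `G`, `H` are.
(3) Some polynomial-time algorithm decides isomorphism correctly for all pairs of graphs of the
class if and only if GRAPH ISOMORPHISM is in `P`.
(4) Every problem in `NP` has a polynomial-time many-one reduction to graph isomorphism all of whose
values are pairs of graphs of the class if and only if GRAPH ISOMORPHISM is `NP`-hard.
(5) For some `C` and all `k ≥ 1` there are two non-isomorphic graphs of the class with at most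
`C k ^ C` vertices which the `k`-dimensional Weisfeiler-Leman method does not distinguish. -/
theorem result (ε : ℝ) (hε : 0 < ε) :
    (∀ (N : ℕ) (G : SimpleGraph (Fin N)), 0 < N →
      (∀ lam : ℝ, HalfExpander lam G → (N : ℝ) ≤ 4 * lam ^ 2) ∧
      (Pseudorandom ε G → ∀ S T : Finset (Fin N),
        |(edgePairs G S T : ℝ) - S.card * T.card / 2| ≤
          (N : ℝ) ^ (1 / 2 + ε) * √(S.card * T.card))) ∧
    (∃ (N : ℕ → ℕ) (T : ∀ n, SimpleGraph (Fin n) → SimpleGraph (Fin (N n)))
        (F : List Bool → List Bool), PolyTime F ∧
      (∀ n G, F (bits (adjMatrix G)) = bits (adjMatrix (T n G))) ∧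
      (∀ n G, Pseudorandom ε (T n G)) ∧
      ∀ n m G H, Nonempty (T n G ≃g T m H) ↔ Nonempty (G ≃g H)) ∧
    ((∃ A : List Bool → List Bool, PolyTime A ∧
        ∀ (n m : ℕ) (G : SimpleGraph (Fin n)) (H : SimpleGraph (Fin m)),
          Pseudorandom ε G → Pseudorandom ε H →
          (A (bits (adjMatrix G, adjMatrix H)) = [true] ↔ Nonempty (G ≃g H))) ↔ InP GI) ∧
    ((∀ L : Set (List Bool), InNP L → ∃ g : List Bool → List Bool, PolyTime g ∧
        ∀ x, ∃ (n m : ℕ) (G : SimpleGraph (Fin n)) (H : SimpleGraph (Fin m)),
          Pseudorandom ε G ∧ Pseudorandom ε H ∧ g x = bits (adjMatrix G, adjMatrix H) ∧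
          (x ∈ L ↔ Nonempty (G ≃g H))) ↔ NPHard GI) ∧
    ∃ C : ℕ, ∀ k : ℕ, 1 ≤ k → ∃ (N : ℕ) (G H : SimpleGraph (Fin N)), N ≤ C * k ^ C ∧
      Pseudorandom ε G ∧ Pseudorandom ε H ∧ ¬ Nonempty (G ≃g H) ∧ WLEquivalent k G H :=
  ⟨(main hε).1, (main hε).2.1, (main hε).2.2.1, (main hε).2.2.2, wl_lower_fin hε⟩

end Pool.Agent.Results.MP_128e7d_lc.PseudorandomGraphs
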